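import Pool.Agent.Y752.QF.Stm3
import Pool.Agent.Y945.QF.Zt

/-!
# Project QF: partial sums of zeta and zeta at the shifted points, all sign patterns (S_ZT3)
-/

set_option autoImplicit false

namespace Pool.Agent.Y722.QF

open Complex Filter Topology MeasureTheory Set
open Pool.Agent.Y752.QF
open Pool.Agent.TH612.GS (mP zN SepA)
open Pool.Agent.TH228.GS (prod_sub_le zN_le hh hh_nonneg H1 H1_meas H1_int H2 H2_meas H2_int le_H2 fub)
open Pool.Agent.Y945.QF (fub')
open scoped ENNReal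

noncomputable section

/-- the majorant -/
def HH (N : ℕ) (H v : ℝ) : ℝ≥0∞ := H2 N (2 * H) v + H2 N H v

lemma HH_meas (N : ℕ) (H : ℝ) : Measurable (HH N H) := (H2_meas N _).add (H2_meas N _)

lemma H2_neg (N : ℕ) (T v : ℝ) : H2 N T (-v) = H2 N T v := by
  unfold H2
  rw [neg_neg, add_comm]

lemma HH_neg (N : ℕ) (H v : ℝ) : HH N H (-v) = HH N H v := by
  unfold HH
  rw [H2_neg, H2_neg]

lemma fubs {k : ℕ} (σ : Fin k → Bool) (N : ℕ) (H : ℝ) (p q : Fin k) :
    ∫⁻ γ, HH N H (sv σ γ p + sv σ γ q) ∂(mP (Fin k) H) ≤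
      (∫⁻ v, HH N H v) * ENNReal.ofReal H ^ (Fintype.card (Fin k) - 1) := by
  rcases hp : σ p with _ | _ <;> rcases hq : σ q with _ | _
  · -- both negative
    have e : ∀ γ : Fin k → ℝ, HH N H (sv σ γ p + sv σ γ q) = HH N H (γ p + γ q) := by
      intro γ
      have e1 : sv σ γ p + sv σ γ q = -(γ p + γ q) := by
        simp [sv, hp, hq]
        ring
      rw [e1, HH_neg]
    simp only [e]
    exact fub' H p q (HH_meas N H)
  · have hpq : q ≠ p := fun h => by rw [h, hp] at hq; exact absurd hq (by simp)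
    have e : ∀ γ : Fin k → ℝ, HH N H (sv σ γ p + sv σ γ q) = HH N H (γ q - γ p) := by
      intro γ
      have e1 : sv σ γ p + sv σ γ q = γ q - γ p := by
        simp [sv, hp, hq]
        ring
      rw [e1]
    simp only [e]
    exact fub H hpq (HH_meas N H)
  · have hpq : p ≠ q := fun h => by rw [← h, hp] at hq; exact absurd hq (by simp)
    have e : ∀ γ : Fin k → ℝ, HH N H (sv σ γ p + sv σ γ q) = HH N H (γ p - γ q) := by
      intro γ
      have e1 : sv σ γ p + sv σ γ q = γ p - γ q := by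
        simp [sv, hp, hq]
        ring
      rw [e1]
    simp only [e]
    exact fub H hpq (HH_meas N H)
  · have e : ∀ γ : Fin k → ℝ, HH N H (sv σ γ p + sv σ γ q) = HH N H (γ p + γ q) := by
      intro γ
      have e1 : sv σ γ p + sv σ γ q = γ p + γ q := by
        simp [sv, hp, hq]
      rw [e1]
    simp only [e]
    exact fub' H p q (HH_meas N H)

/-- the size of the arguments -/
lemma args {k : ℕ} {H : ℝ} (hH : 3 ≤ H) (σ : Fin k → Bool) {γ : Fin k → ℝ}
    (hγ : γ ∈ SepA (fun _ => 0) H) (p q : Fin k) :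
    ((2 * H) ^ (1 / 2 : ℝ) ≤ |sv σ γ p + sv σ γ q| ∧ |sv σ γ p + sv σ γ q| ≤ 2 * H) ∨
    (H ^ (1 / 2 : ℝ) ≤ |sv σ γ p + sv σ γ q| ∧ |sv σ γ p + sv σ γ q| ≤ H) := by
  have hH0 : 0 < H := by linarith
  obtain ⟨h1, h2, h3⟩ := hγ
  have hsq : (2 * H) ^ (1 / 2 : ℝ) ≤ 2 * H ^ (1 / 2 : ℝ) := by
    rw [Real.mul_rpow (by norm_num) hH0.le]
    apply mul_le_mul_of_nonneg_right _ (Real.rpow_nonneg hH0.le _)
    calc (2 : ℝ) ^ (1 / 2 : ℝ) ≤ 2 ^ (1 : ℝ) :=
          Real.rpow_le_rpow_of_exponent_le (by norm_num) (by norm_num)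
      _ = 2 := Real.rpow_one 2
  have hr : 0 ≤ H ^ (1 / 2 : ℝ) := Real.rpow_nonneg hH0.le _
  have hge : ∀ j, H ^ (1 / 2 : ℝ) ≤ γ j := by
    intro j
    have := h3 j j
    simp only [sub_zero] at this
    rwa [abs_of_nonneg (h1 j).1] at this
  have hsum : (2 * H) ^ (1 / 2 : ℝ) ≤ |γ p + γ q| ∧ |γ p + γ q| ≤ 2 * H := by
    have a1 := hge p
    have a2 := hge q
    have b1 := (h1 p).2
    have b2 := (h1 q).2
    rw [abs_of_nonneg (by linarith)]
    constructor <;> linarith
  have hdif : p ≠ q → H ^ (1 / 2 : ℝ) ≤ |γ p - γ q| ∧ |γ p - γ q| ≤ H := by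
    intro hpq
    refine ⟨h2 p q hpq, ?_⟩
    rw [abs_le]
    have a1 := (h1 p).1
    have a2 := (h1 q).1
    have b1 := (h1 p).2
    have b2 := (h1 q).2
    constructor <;> linarith
  rcases hp : σ p with _ | _ <;> rcases hq : σ q with _ | _
  · left
    have e1 : sv σ γ p + sv σ γ q = -(γ p + γ q) := by
      simp [sv, hp, hq]
      ring
    rw [e1, abs_neg]
    exact hsum
  · right
    have hpq : p ≠ q := fun h => by rw [← h, hp] at hq; exact absurd hq (by simp)
    have e1 : sv σ γ p + sv σ γ q = -(γ p - γ q) := by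
      simp [sv, hp, hq]
      ring
    rw [e1, abs_neg]
    exact hdif hpq
  · right
    have hpq : p ≠ q := fun h => by rw [← h, hp] at hq; exact absurd hq (by simp)
    have e1 : sv σ γ p + sv σ γ q = γ p - γ q := by
      simp [sv, hp, hq]
      ring
    rw [e1]
    exact hdif hpq
  · left
    have e1 : sv σ γ p + sv σ γ q = γ p + γ q := by
      simp [sv, hp, hq]
    rw [e1]
    exact hsum

theorem ZT3 : S_ZT3 := by
  intro k
  obtain ⟨C₁, T₁, hC₁, hT₁, hone⟩ := Pool.Agent.Y752.SR.one' Pool.Agent.TH928.GS.t_MV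
  set m : ℕ := (Ed k).card with hm
  set K₁ : ℝ := 2 * max C₁ 2 with hK₁
  have hmx : (2 : ℝ) ≤ max C₁ 2 := le_max_right _ _
  have hK₁0 : 0 < K₁ := by rw [hK₁]; linarith
  set D : ℝ := K₁ ^ (2 * m) * m * (m * (12 * C₁)) with hD
  have hD0 : 0 ≤ D := by rw [hD]; positivity
  refine ⟨D + 1, T₁, 2 * m + 1, by linarith, hT₁, ?_⟩
  intro σ H θ N hH hθ hN hNH
  have hH3 : 3 ≤ H := hT₁.trans hH
  have hH0 : 0 < H := by linarith
  have hH1 : 1 ≤ H := by linarith
  set T : ℝ := 2 * H with hTdef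
  have hT : T₁ ≤ T := by linarith
  have hT3 : 3 ≤ T := by linarith
  have hT1 : 1 ≤ T := by linarith
  have hNT : (N : ℝ) ≤ T := by linarith
  obtain ⟨hz, hi⟩ := hone T N hT hN hNT
  obtain ⟨-, hi'⟩ := hone H N hH hN hNH
  have hN1 : (1 : ℝ) ≤ N := by exact_mod_cast hN
  have hN0 : (0 : ℝ) < N := by linarith
  have hLH : 1 ≤ Real.log H := by
    rw [Real.le_log_iff_exp_le (by linarith)]
    have := Real.exp_one_lt_d9
    linarith
  have hLT : 1 ≤ Real.log T := by
    rw [Real.le_log_iff_exp_le (by linarith)]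
    have := Real.exp_one_lt_d9
    linarith
  have hLHT : Real.log H ≤ Real.log T := Real.log_le_log hH0 (by linarith)
  have hLT2 : Real.log T ≤ 2 * Real.log H := by
    have h1 : Real.log T = Real.log 2 + Real.log H := by
      rw [hTdef, Real.log_mul (by norm_num) hH0.ne']
    have h2 : Real.log 2 ≤ Real.log H := Real.log_le_log (by norm_num) (by linarith)
    linarith
  have hlogN : Real.log N ≤ Real.log T := Real.log_le_log hN0 hNT
  set K : ℝ := max C₁ 2 * Real.log T with hK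
  have hK2 : 2 * Real.log T ≤ K := mul_le_mul_of_nonneg_right hmx (by linarith)
  have hK1 : 1 ≤ K := by linarith
  have hKC : C₁ * Real.log T ≤ K := mul_le_mul_of_nonneg_right (le_max_left _ _) (by linarith)
  have hKK : K ≤ K₁ * Real.log H := by
    rw [hK, hK₁]
    nlinarith
  have hzN : ∀ v : ℝ, ‖zN N (1 + I * v)‖ ≤ K := fun v => (zN_le N v).trans (by linarith)
  set A : ℝ := K ^ (2 * m) * m with hA
  have hA0 : 0 ≤ A := by rw [hA]; positivity
  have hH12 : (1 : ℝ) ≤ H ^ (1 / 2 : ℝ) := Real.one_le_rpow hH1 (by norm_num)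
  have hT12 : (1 : ℝ) ≤ T ^ (1 / 2 : ℝ) := Real.one_le_rpow hT1 (by norm_num)
  -- the majorant
  set G : (Fin k → ℝ) → ℝ≥0∞ := fun γ => ENNReal.ofReal A *
      ∑ e ∈ Ed k, HH N H (sv σ γ e.1 + sv σ γ e.2) with hG
  have hpt : ∀ γ ∈ SepA (fun _ => 0) H, ENNReal.ofReal
      (‖QQ2 N (sv σ γ) - ∏ e ∈ Ed k, riemannZeta (1 + le (sv σ γ) e)‖ ^ 2) ≤ G γ := by
    intro γ hγ
    set v : Fin k × Fin k → ℝ := fun e => sv σ γ e.1 + sv σ γ e.2 with hv
    have hv0 : ∀ e, (T ^ (1 / 2 : ℝ) ≤ |v e| ∧ |v e| ≤ T) ∨ (H ^ (1 / 2 : ℝ) ≤ |v e| ∧ |v e| ≤ H) :=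
      fun e => args hH3 σ hγ e.1 e.2
    have hv1 : ∀ e, 1 ≤ |v e| := by
      intro e
      rcases hv0 e with h | h
      · exact hT12.trans h.1
      · exact hH12.trans h.1
    have hv2 : ∀ e, |v e| ≤ T := by
      intro e
      rcases hv0 e with h | h
      · exact h.2
      · exact h.2.trans (by linarith)
    have hle : ∀ e, le (sv σ γ) e = I * (v e : ℂ) := by
      intro e
      simp only [hv, le]
      push_cast
      ring
    have hz' : ∀ e, ‖riemannZeta (1 + I * (v e : ℂ))‖ ≤ K := fun e =>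
      (hz (v e) (hv1 e) (hv2 e)).trans hKC
    have h2 := prod_sub_le (Ed k) (fun e => zN N (1 + I * (v e : ℂ)))
      (fun e => riemannZeta (1 + I * (v e : ℂ))) hK1 (fun e _ => hzN (v e)) (fun e _ => hz' e)
    rw [← hm] at h2
    have h3 : ‖QQ2 N (sv σ γ) - ∏ e ∈ Ed k, riemannZeta (1 + le (sv σ γ) e)‖ ≤ K ^ m *
        ∑ e ∈ Ed k, ‖zN N (1 + I * (v e : ℂ)) - riemannZeta (1 + I * (v e : ℂ))‖ := by
      unfold QQ2
      simp only [hle]
      exact h2
    have h4 : (∑ e ∈ Ed k,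
        ‖zN N (1 + I * (v e : ℂ)) - riemannZeta (1 + I * (v e : ℂ))‖) ^ 2 ≤
        m * ∑ e ∈ Ed k, hh N (v e) := by
      have := sq_sum_le_card_mul_sum_sq (s := Ed k)
        (f := fun e => ‖zN N (1 + I * (v e : ℂ)) - riemannZeta (1 + I * (v e : ℂ))‖)
      rw [← hm] at this
      refine this.trans (le_of_eq ?_)
      congr 1
      refine Finset.sum_congr rfl fun e _ => ?_
      unfold hh
      rw [norm_sub_rev]
    have h5 : ‖QQ2 N (sv σ γ) - ∏ e ∈ Ed k, riemannZeta (1 + le (sv σ γ) e)‖ ^ 2 ≤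
        A * ∑ e ∈ Ed k, hh N (v e) := by
      calc ‖QQ2 N (sv σ γ) - ∏ e ∈ Ed k, riemannZeta (1 + le (sv σ γ) e)‖ ^ 2 ≤ (K ^ m *
            ∑ e ∈ Ed k,
              ‖zN N (1 + I * (v e : ℂ)) - riemannZeta (1 + I * (v e : ℂ))‖) ^ 2 :=
            pow_le_pow_left₀ (norm_nonneg _) h3 2
        _ = K ^ (2 * m) * (∑ e ∈ Ed k,
              ‖zN N (1 + I * (v e : ℂ)) - riemannZeta (1 + I * (v e : ℂ))‖) ^ 2 := by
            rw [mul_comm 2 m, pow_mul]; ring
        _ ≤ K ^ (2 * m) * (m * ∑ e ∈ Ed k, hh N (v e)) :=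
            mul_le_mul_of_nonneg_left h4 (by positivity)
        _ = _ := by rw [hA]; ring
    have hleH : ∀ e, ENNReal.ofReal (hh N (v e)) ≤ HH N H (v e) := by
      intro e
      unfold HH
      rcases hv0 e with h | h
      · exact le_add_right (le_H2 N h.1 h.2)
      · exact le_add_left (le_H2 N h.1 h.2)
    calc ENNReal.ofReal (‖QQ2 N (sv σ γ) - ∏ e ∈ Ed k, riemannZeta (1 + le (sv σ γ) e)‖ ^ 2)
        ≤ ENNReal.ofReal (A * ∑ e ∈ Ed k, hh N (v e)) := ENNReal.ofReal_le_ofReal h5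
      _ = ENNReal.ofReal A * ∑ e ∈ Ed k, ENNReal.ofReal (hh N (v e)) := by
          rw [ENNReal.ofReal_mul hA0, ENNReal.ofReal_sum_of_nonneg fun e _ => hh_nonneg N _]
      _ ≤ _ := by
          rw [hG]
          simp only
          gcongr with e
          exact hleH e
  have hsvm : ∀ j : Fin k, Measurable fun γ : Fin k → ℝ => sv σ γ j := by
    intro j
    have hj : Measurable fun γ : Fin k → ℝ => γ j := measurable_pi_apply j
    unfold sv
    rcases σ j with _ | _
    · simpa using hj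
    · simpa using hj
  have hmeas : ∀ e : Fin k × Fin k, Measurable fun γ : Fin k → ℝ =>
      HH N H (sv σ γ e.1 + sv σ γ e.2) := fun e =>
    (HH_meas N H).comp ((hsvm _).add (hsvm _))
  have hmeasG : Measurable G :=
    (Finset.measurable_fun_sum _ fun e _ => hmeas e).const_mul _
  have hHHint : ∫⁻ v, HH N H v ≤ ENNReal.ofReal (6 * C₁ * Real.log T * H / N) := by
    unfold HH
    rw [lintegral_add_left (H2_meas N _), H2_int N hT1, H2_int N hH1]
    have e1 : ∫ v in (T ^ (1 / 2 : ℝ))..T, hh N v ≤ C₁ * Real.log T * T / N := hi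
    have e2 : ∫ v in (H ^ (1 / 2 : ℝ))..H, hh N v ≤ C₁ * Real.log H * H / N := hi'
    have e3 : (2 : ℝ≥0∞) = ENNReal.ofReal 2 := by norm_num
    rw [e3, ← ENNReal.ofReal_mul (by norm_num), ← ENNReal.ofReal_mul (by norm_num)]
    have p1 : 0 ≤ C₁ * Real.log T * T / N := by positivity
    have p2 : 0 ≤ C₁ * Real.log H * H / N := by positivity
    calc ENNReal.ofReal (2 * ∫ v in (T ^ (1 / 2 : ℝ))..T, hh N v) +
          ENNReal.ofReal (2 * ∫ v in (H ^ (1 / 2 : ℝ))..H, hh N v)
        ≤ ENNReal.ofReal (2 * (C₁ * Real.log T * T / N)) +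
          ENNReal.ofReal (2 * (C₁ * Real.log H * H / N)) := by
          gcongr
      _ = ENNReal.ofReal (2 * (C₁ * Real.log T * T / N) + 2 * (C₁ * Real.log H * H / N)) :=
          (ENNReal.ofReal_add (by positivity) (by positivity)).symm
      _ ≤ ENNReal.ofReal (6 * C₁ * Real.log T * H / N) := by
          refine ENNReal.ofReal_le_ofReal ?_
          have e4 : C₁ * Real.log H * H / N ≤ C₁ * Real.log T * H / N := by gcongr
          have e5 : C₁ * Real.log T * T / N = 2 * (C₁ * Real.log T * H / N) := by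
            rw [hTdef]; ring
          have e6 : 6 * C₁ * Real.log T * H / N = 6 * (C₁ * Real.log T * H / N) := by ring
          rw [e5, e6]
          linarith
  have hint : ∫⁻ γ, G γ ∂(mP (Fin k) H) ≤
      ENNReal.ofReal ((D + 1) * Real.log H ^ (2 * m + 1) * H ^ k / N) := by
    calc ∫⁻ γ, G γ ∂(mP (Fin k) H)
        = ENNReal.ofReal A * ∑ e ∈ Ed k,
            ∫⁻ γ, HH N H (sv σ γ e.1 + sv σ γ e.2) ∂(mP (Fin k) H) := by
          rw [hG, lintegral_const_mul _ (Finset.measurable_fun_sum _ fun e _ => hmeas e),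
            lintegral_finsetSum _ fun e _ => hmeas e]
      _ ≤ ENNReal.ofReal A * ∑ e ∈ Ed k,
            ENNReal.ofReal ((6 * C₁ * Real.log T * H / N) * H ^ (k - 1)) := by
          gcongr with e
          refine (fubs σ N H e.1 e.2).trans ?_
          rw [Fintype.card_fin, ENNReal.ofReal_mul (by positivity),
            ENNReal.ofReal_pow hH0.le]
          gcongr
      _ ≤ ENNReal.ofReal ((D + 1) * Real.log H ^ (2 * m + 1) * H ^ k / N) := by
          rw [Finset.sum_const, ← hm, nsmul_eq_mul, ← ENNReal.ofReal_natCast,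
            ← ENNReal.ofReal_mul (by positivity), ← ENNReal.ofReal_mul hA0]
          refine ENNReal.ofReal_le_ofReal ?_
          rcases Nat.eq_zero_or_pos k with hk | hk
          · have hm0 : m = 0 := by
              rw [hm]
              subst hk
              simp [Ed]
            rw [hm0]
            simp only [Nat.cast_zero, zero_mul, mul_zero]
            positivity
          · have e2 : H * H ^ (k - 1) = H ^ k := by
              rw [← pow_succ']
              congr 1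
              omega
            have hLH0 : 0 ≤ Real.log H := by linarith
            have e3 : A * ((m : ℝ) * ((6 * C₁ * Real.log T * H / N) * H ^ (k - 1))) =
                K ^ (2 * m) * m * (m * (6 * C₁)) * Real.log T * H ^ k / N := by
              rw [← e2, hA]
              ring
            rw [e3]
            have e4 : K ^ (2 * m) * m * (m * (6 * C₁)) * Real.log T ≤
                (K₁ * Real.log H) ^ (2 * m) * m * (m * (6 * C₁)) * (2 * Real.log H) := by
              gcongr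
            have e5 : (K₁ * Real.log H) ^ (2 * m) * m * (m * (6 * C₁)) * (2 * Real.log H) =
                D * Real.log H ^ (2 * m + 1) := by
              rw [hD, mul_pow]
              ring
            rw [e5] at e4
            have e6 : D * Real.log H ^ (2 * m + 1) ≤ (D + 1) * Real.log H ^ (2 * m + 1) := by
              gcongr
              linarith
            have e7 := e4.trans e6
            gcongr
  have hsub : SepA (fun _ => 0) H ∩
      {γ | θ ≤ ‖QQ2 N (sv σ γ) - ∏ e ∈ Ed k, riemannZeta (1 + le (sv σ γ) e)‖ ^ 2} ⊆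
      {γ | ENNReal.ofReal θ ≤ G γ} := by
    rintro γ ⟨hγ1, hγ2⟩
    exact (ENNReal.ofReal_le_ofReal hγ2).trans (hpt γ hγ1)
  have hθ0 : ENNReal.ofReal θ ≠ 0 := by simpa using hθ
  calc mP (Fin k) H (SepA (fun _ => 0) H ∩
        {γ | θ ≤ ‖QQ2 N (sv σ γ) - ∏ e ∈ Ed k, riemannZeta (1 + le (sv σ γ) e)‖ ^ 2})
      ≤ mP (Fin k) H {γ | ENNReal.ofReal θ ≤ G γ} := measure_mono hsub
    _ ≤ (∫⁻ γ, G γ ∂(mP (Fin k) H)) / ENNReal.ofReal θ :=
        meas_ge_le_lintegral_div hmeasG.aemeasurable hθ0 ENNReal.ofReal_ne_top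
    _ ≤ ENNReal.ofReal ((D + 1) * Real.log H ^ (2 * m + 1) * H ^ k / N) / ENNReal.ofReal θ := by
        gcongr
    _ = ENNReal.ofReal ((D + 1) * Real.log H ^ (2 * m + 1) * H ^ k / (N * θ)) := by
        rw [← ENNReal.ofReal_div_of_pos hθ, div_div]

end

end Pool.Agent.Y722.QF
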